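import Pool.Agent.H61.IgD

set_option autoImplicit false

namespace Pool.Agent.Results.MP_0955de_an.Holds

open Pool.Agent.H61.Ig

theorem result (a₁ a₂ : ℝ) (h₁ : ∀ n : ℤ, a₁ ≠ n) (h₂ : ∀ n : ℤ, a₂ ≠ n) (h : a₁ ≠ a₂)
    (t₁ x₁ t₂ x₂ T : ℝ) (hT : 0 < T) :
    ∃ C : ℝ, ∀ (K : Finset ℤ) (cp cm : ℤ → ℂ), (∀ k ∉ K, cp k = 0 ∧ cm k = 0) →
      ∑ k ∈ K, (‖cp k‖ ^ 2 + ‖cm k‖ ^ 2) ≤ C * ∫ t in (0 : ℝ)..T,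
        (‖sol K cp cm (t₁ + t) (x₁ - a₁ * t)‖ ^ 2 + ‖sol K cp cm (t₂ + t) (x₂ - a₂ * t)‖ ^ 2) := by
  have key : ∀ (K : Finset ℤ) (cp cm : ℤ → ℂ), ∫ t in (0 : ℝ)..T,
      (‖sol K cp cm (t₁ + t) (x₁ - a₁ * t)‖ ^ 2 + ‖sol K cp cm (t₂ + t) (x₂ - a₂ * t)‖ ^ 2)
      = obs a₁ t₁ x₁ T K cp cm + obs a₂ t₂ x₂ T K cp cm := by
    intro K cp cm
    refine intervalIntegral.integral_add (Continuous.intervalIntegrable ?_ _ _)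
      (Continuous.intervalIntegrable ?_ _ _) <;> unfold sol <;> fun_prop
  simp only [key]
  have hne : 1 / a₁ ≠ 1 / a₂ := by simpa using h
  rcases lt_or_gt_of_ne hne with h' | h'
  · simpa only [add_comm (obs a₂ _ _ _ _ _ _)] using two_seg h₂ h₁ h' t₂ x₂ t₁ x₁ hT
  · exact two_seg h₁ h₂ h' t₁ x₁ t₂ x₂ hT

end Pool.Agent.Results.MP_0955de_an.Holds
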